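import Pool.Agent.Helper33.PT.Defs
import Pool.Agent.Helper55.LW.Main

/-!
# Plan T, module T-BASE: the base inequality for determinants of bidegree less than m
-/

set_option autoImplicit false

open Finset Polynomial

namespace Pool.Agent.Helper11.PT

open Pool.Agent.Helper33 Pool.Agent.Helper33.PT Pool.Agent.Helper55.LW

/-- the energy of the set of values of an injective sequence -/
lemma En_seq {E ι : Type*} [Field E] [DecidableEq ι] (v : DV E) (x : ι → E) (H : ι → ℝ) (q : ℝ)
    (m : ℕ) (z : ℕ → ι) (hz : ∀ c < m, ∀ l < c, z c ≠ z l) :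
    Pool.Agent.Helper33.PT.En v x H q ((range m).image z) =
      2 * ∑ c ∈ range m, ∑ l ∈ range c, (v.o (x (z c) - x (z l)) : ℝ) -
        2 * ((m : ℝ) - 1) * ∑ c ∈ range m, H (z c) + q * (m * ((m : ℝ) - 1)) := by
  have hinj : Set.InjOn z (range m : Finset ℕ) := by
    intro a ha b hb hab
    rw [coe_range, Set.mem_Iio] at ha hb
    rcases lt_trichotomy a b with h | h | h
    · exact absurd hab.symm (hz b hb a h)
    · exact h
    · exact absurd hab (hz a ha b h)
  have h1 : Pool.Agent.Helper33.PT.En v x H q ((range m).image z) =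
      ∑ a ∈ range m, ∑ b ∈ range m, (if a = b then 0 else
        ((v.o (x (z a) - x (z b)) : ℝ) - H (z a) - H (z b) + q)) := by
    unfold Pool.Agent.Helper33.PT.En
    rw [Finset.sum_image hinj]
    apply Finset.sum_congr rfl
    intro a ha
    rw [Finset.sum_filter, Finset.sum_image hinj]
    apply Finset.sum_congr rfl
    intro b hb
    by_cases h : a = b
    · subst h
      simp
    · rw [if_neg h, if_pos (fun hc => h (hinj (by simpa using ha) (by simpa using hb) hc.symm))]
  rw [h1, sum_sym (fun a b => (v.o (x (z a) - x (z b)) : ℝ) - H (z a) - H (z b) + q)]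
  · have h2 : ∑ i ∈ range m, ∑ j ∈ range i, ((v.o (x (z i) - x (z j)) : ℝ) - H (z i) - H (z j) + q) =
        ∑ c ∈ range m, ∑ l ∈ range c, (v.o (x (z c) - x (z l)) : ℝ) -
          ∑ c ∈ range m, ∑ l ∈ range c, (H (z c) + H (z l)) +
          ∑ c ∈ range m, ∑ _l ∈ range c, q := by
      rw [← Finset.sum_sub_distrib, ← Finset.sum_add_distrib]
      apply Finset.sum_congr rfl
      intro c _
      rw [← Finset.sum_sub_distrib, ← Finset.sum_add_distrib]
      apply Finset.sum_congr rfl
      intro l _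
      ring
    rw [h2, sum_pair (fun i => H (z i)), sum_cst]
    ring
  · intro a b
    simp only [v.o_sub_comm (x (z a)) (x (z b))]
    ring

/-- Leja polynomials on a finite set of points -/
lemma exists_leja_poly {E ι : Type*} [Field E] [DecidableEq ι] (v : DV E) (m : ℕ) (hm : 1 ≤ m)
    (X : Finset ι) (hX : m ≤ X.card) (x : ι → E)
    (H : ι → ℝ) (q e : ℝ)
    (he : ∀ S ⊆ X, S.card = m → 2 * e ≤ Pool.Agent.Helper33.PT.En v x H q S) :
    ∃ (z : ℕ → ι) (β : ℕ → ℝ), (∀ c < m, ∀ j ∈ X,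
      v.ge (β c + ((m : ℝ) - 1) * H j) (∏ l ∈ range c, (x j - x (z l)))) ∧
      e - q * (m * ((m : ℝ) - 1) / 2) ≤ ∑ c ∈ range m, β c := by
  have hne : Nonempty ι := by
    have : 0 < X.card := by omega
    obtain ⟨a, -⟩ := Finset.card_pos.mp this
    exact ⟨a⟩
  obtain ⟨z, h1, h2, h3⟩ := exists_leja (fun i j => (v.o (x i - x j) : ℝ)) X
    (fun i => -(((m : ℝ) - 1) * H i)) m hX
  refine ⟨z, fun c => ∑ l ∈ range c, (v.o (x (z c) - x (z l)) : ℝ) + -(((m : ℝ) - 1) * H (z c)),
    ?_, ?_⟩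
  · intro c hc j hj
    by_cases h : ∃ l < c, j = z l
    · obtain ⟨l, hl, rfl⟩ := h
      left
      exact Finset.prod_eq_zero (mem_range.mpr hl) (sub_self _)
    · push Not at h
      have h4 := h3 c hc j hj h
      have h5 := ge_prod (v := v) (range c) (fun l => (v.o (x j - x (z l)) : ℝ))
        (fun l => x j - x (z l)) (fun l _ => DV.ge_self _)
      refine DV.ge_mono h5 ?_
      simp only at h4 ⊢
      linarith
  · have hcard : ((range m).image z).card = m := by
      rw [Finset.card_image_of_injOn, card_range]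
      intro a ha b hb hab
      rw [coe_range, Set.mem_Iio] at ha hb
      rcases lt_trichotomy a b with h | h | h
      · exact absurd hab.symm (h2 b hb a h)
      · exact h
      · exact absurd hab (h2 a ha b h)
    have hsub : (range m).image z ⊆ X := by
      intro a ha
      rw [mem_image] at ha
      obtain ⟨c, hc, rfl⟩ := ha
      exact h1 c (mem_range.mp hc)
    have h4 := he _ hsub hcard
    rw [En_seq v x H q m z h2] at h4
    simp only [Finset.sum_add_distrib, Finset.sum_neg_distrib, ← Finset.mul_sum]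
    linarith

lemma monic_leja {E : Type*} [Field E] (u : ℕ → E) (c : ℕ) :
    (∏ l ∈ range c, ((X : E[X]) - C (u l))).Monic ∧
      (∏ l ∈ range c, ((X : E[X]) - C (u l))).natDegree = c := by
  constructor
  · exact monic_prod_of_monic _ _ (fun l _ => monic_X_sub_C _)
  · rw [natDegree_prod_of_monic _ _ (fun l _ => monic_X_sub_C _)]
    simp

/-- **T-BASE** -/
theorem det_base {E ι : Type*} [Field E] [DecidableEq ι] (v : DV E) (m : ℕ) (hm : 1 ≤ m) (X : Finset ι)
    (hX : m ≤ X.card) (x y : ι → E) (hx : Set.InjOn x (X : Set ι)) (hy : Set.InjOn y (X : Set ι))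
    (H H' : ι → ℝ) (q q' e e' : ℝ)
    (he : ∀ S ⊆ X, S.card = m → 2 * e ≤ Pool.Agent.Helper33.PT.En v x H q S)
    (he' : ∀ S ⊆ X, S.card = m → 2 * e' ≤ Pool.Agent.Helper33.PT.En v y H' q' S)
    (i : Fin m × Fin m → ι) (hi : ∀ a, i a ∈ X) (hdet : (PM m (x ∘ i) (y ∘ i)).det ≠ 0) :
    m * (e + e') ≤ (v.o (PM m (x ∘ i) (y ∘ i)).det : ℝ) - (m - 1) * ∑ a, (H (i a) + H' (i a)) +
      (q + q') * (m - 1) * m ^ 2 / 2 := by
  obtain ⟨z, β, hz, hβ⟩ := exists_leja_poly v m hm X hX x H q e he
  obtain ⟨z', β', hz', hβ'⟩ := exists_leja_poly v m hm X hX y H' q' e' he'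
  have hbasis := det_basis m
    (fun ce => ∏ l ∈ range (ce.1 : ℕ), ((Polynomial.X : E[X]) - C (x (z l))))
    (fun ce => (∏ l ∈ range (ce.2 : ℕ), ((Polynomial.X : E[X]) - C (y (z' l)))).map C)
    (fun ce => (monic_leja _ _).1) (fun ce => (monic_leja _ _).2)
    (fun ce => (monic_leja _ _).1.map _) (fun ce => by
      rw [(monic_leja _ _).1.natDegree_map, (monic_leja _ _).2])
    (fun ce r => by
      rw [coeff_map, mul_comm]
      refine lt_of_le_of_lt (natDegree_C_mul_le _ _) ?_
      rw [(monic_leja _ _).2]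
      exact ce.1.2)
    (x ∘ i) (y ∘ i)
  have hPM : (PM m (x ∘ i) (y ∘ i)).det = (Matrix.of fun j (ce : Fin m × Fin m) =>
      (∏ l ∈ range (ce.1 : ℕ), (x (i j) - x (z l))) *
        (∏ l ∈ range (ce.2 : ℕ), (y (i j) - y (z' l)))).det := by
    rw [PM, ← hbasis]
    congr 1
    ext j ce
    simp only [Matrix.of_apply, eval_prod, eval_sub, eval_X, eval_C, Function.comp_apply]
    congr 1
    rw [Polynomial.evalEval_map_C]
    simp only [eval_prod, eval_sub, eval_X, eval_C]
  have hge := ge_det (v := v) (Matrix.of fun j (ce : Fin m × Fin m) =>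
      (∏ l ∈ range (ce.1 : ℕ), (x (i j) - x (z l))) *
        (∏ l ∈ range (ce.2 : ℕ), (y (i j) - y (z' l))))
    (fun j => ((m : ℝ) - 1) * (H (i j) + H' (i j))) (fun ce => β ce.1 + β' ce.2) (by
      intro j ce
      rw [Matrix.of_apply]
      refine DV.ge_mono (DV.ge_mul (hz ce.1 ce.1.2 (i j) (hi j)) (hz' ce.2 ce.2.2 (i j) (hi j))) ?_
      apply le_of_eq
      ring)
  rw [← hPM] at hge
  have h1 := DV.ge_le hge hdet
  have hsum : ∑ ce : Fin m × Fin m, (β ce.1 + β' ce.2) =
      m * ∑ c ∈ range m, β c + m * ∑ c ∈ range m, β' c := by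
    rw [Fintype.sum_prod_type, ← Fin.sum_univ_eq_sum_range β m, ← Fin.sum_univ_eq_sum_range β' m]
    simp only [Finset.sum_add_distrib, Finset.sum_const, card_univ, Fintype.card_fin, nsmul_eq_mul,
      ← Finset.mul_sum]
  rw [hsum, ← Finset.mul_sum] at h1
  have hm0 : (0 : ℝ) ≤ m := Nat.cast_nonneg m
  nlinarith [mul_nonneg hm0 (sub_nonneg.mpr hβ), mul_nonneg hm0 (sub_nonneg.mpr hβ')]

end Pool.Agent.Helper11.PT
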